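import Pool.Agent.LE.StmtsQD
import Pool.Agent.Helper48_Loc.Gauss

/-!
Squad LQD, row STE: Gaussian integration by parts (bounded complex functions, variance `v`).
-/

set_option autoImplicit false

open MeasureTheory ProbabilityTheory Function Filter

open scoped ENNReal BigOperators Topology NNReal

noncomputable section

namespace Pool.Agent.LE.QD.H65

variable {v : ℝ≥0}

theorem hd_pdf (hv : v ≠ 0) (t : ℝ) :
    HasDerivAt (gaussianPDFReal 0 v) (-(t / v) * gaussianPDFReal 0 v t) t := by
  have hv' : (v : ℝ) ≠ 0 := by exact_mod_cast hv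
  have h1 : gaussianPDFReal 0 v =
      fun t => (√(2 * Real.pi * v))⁻¹ * Real.exp (-t ^ 2 / (2 * v)) := by
    funext t
    simp [gaussianPDFReal]
  rw [h1]
  have h2 : HasDerivAt (fun t : ℝ => -t ^ 2 / (2 * v)) (-(t / v)) t := by
    have h3 := ((hasDerivAt_pow 2 t).neg).div_const (2 * (v : ℝ))
    have h4 : -((2 : ℕ) * t ^ (2 - 1)) / (2 * (v : ℝ)) = -(t / v) := by
      norm_num
      field_simp
    rw [h4] at h3
    exact h3
  have h3 := (h2.exp).const_mul ((√(2 * Real.pi * v))⁻¹)
  have h4 : (√(2 * Real.pi * v))⁻¹ * (Real.exp (-t ^ 2 / (2 * v)) * -(t / v)) =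
      -(t / v) * ((√(2 * Real.pi * v))⁻¹ * Real.exp (-t ^ 2 / (2 * v))) := by ring
  rw [h4] at h3
  exact h3

theorem int_bdd {f : ℝ → ℂ} (hf : Continuous f) {B : ℝ} (hb : ∀ t, ‖f t‖ ≤ B) :
    Integrable f (gaussianReal 0 v) :=
  (integrable_const B).mono' hf.aestronglyMeasurable (ae_of_all _ hb)

theorem int_abs : Integrable (fun t : ℝ => |t|) (gaussianReal 0 v) := by
  have h1 : MemLp (fun t : ℝ => t) 1 (gaussianReal 0 v) :=
    memLp_id_gaussianReal' 1 (by simp)
  exact (memLp_one_iff_integrable.1 h1).abs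

theorem int_mul {f : ℝ → ℂ} (hf : Continuous f) {B : ℝ} (hb : ∀ t, ‖f t‖ ≤ B) :
    Integrable (fun t : ℝ => (t : ℂ) * f t) (gaussianReal 0 v) := by
  refine (int_abs.mul_const B).mono'
    ((Complex.continuous_ofReal.mul hf).aestronglyMeasurable) (ae_of_all _ fun t => ?_)
  rw [norm_mul, Complex.norm_real, Real.norm_eq_abs]
  exact mul_le_mul_of_nonneg_left (hb t) (abs_nonneg t)

theorem int_pdf (hv : v ≠ 0) {f : ℝ → ℂ} (hf : Integrable f (gaussianReal 0 v)) :
    Integrable (fun t => ((gaussianPDFReal 0 v t : ℝ) : ℂ) * f t) := by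
  rw [gaussianReal_of_var_ne_zero _ hv] at hf
  rw [integrable_withDensity_iff_integrable_smul' (measurable_gaussianPDF 0 v)
    (ae_of_all _ fun t => ENNReal.ofReal_lt_top)] at hf
  refine hf.congr (ae_of_all _ fun t => ?_)
  change (gaussianPDF 0 v t).toReal • f t = _
  rw [gaussianPDF, ENNReal.toReal_ofReal (gaussianPDFReal_nonneg 0 v t), Complex.real_smul]

/-- one variable -/
theorem ste1 (hv : v ≠ 0) {f f' : ℝ → ℂ} (hf : ∀ t, HasDerivAt f (f' t) t)
    (hf' : Continuous f') {B : ℝ} (hb : ∀ t, ‖f t‖ ≤ B) (hb' : ∀ t, ‖f' t‖ ≤ B) :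
    ∫ t, (t : ℂ) * f t ∂(gaussianReal 0 v) = v * ∫ t, f' t ∂(gaussianReal 0 v) := by
  have hv' : (v : ℝ) ≠ 0 := by exact_mod_cast hv
  have hvC : ((v : ℝ) : ℂ) ≠ 0 := by exact_mod_cast hv'
  have hfc : Continuous f := continuous_iff_continuousAt.2 fun t => (hf t).continuousAt
  have j1 := int_pdf hv (int_bdd (v := v) hfc hb)
  have j2 := int_pdf hv (int_bdd (v := v) hf' hb')
  have j3 := int_pdf hv (int_mul (v := v) hfc hb)
  rw [integral_gaussianReal_eq_integral_smul hv, integral_gaussianReal_eq_integral_smul hv]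
  simp only [Complex.real_smul]
  have h := integral_mul_deriv_eq_deriv_mul_of_integrable (u := f) (u' := f')
    (v := fun t => ((gaussianPDFReal 0 v t : ℝ) : ℂ))
    (v' := fun t => ((-(t / v) * gaussianPDFReal 0 v t : ℝ) : ℂ))
    (fun x _ => hf x) (fun x _ => (hd_pdf hv x).ofReal_comp) ?_ ?_ ?_
  · have e1 : ∫ t, f t * ((-(t / v) * gaussianPDFReal 0 v t : ℝ) : ℂ) =
        -((v : ℂ)⁻¹ * ∫ t, ((gaussianPDFReal 0 v t : ℝ) : ℂ) * ((t : ℂ) * f t)) := by
      rw [← integral_const_mul, ← integral_neg]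
      refine integral_congr_ae (ae_of_all _ fun t => ?_)
      push_cast
      ring
    have e2 : ∫ t, f' t * ((gaussianPDFReal 0 v t : ℝ) : ℂ) =
        ∫ t, ((gaussianPDFReal 0 v t : ℝ) : ℂ) * f' t := by
      refine integral_congr_ae (ae_of_all _ fun t => ?_)
      exact mul_comm _ _
    rw [e1, e2, neg_inj] at h
    rw [← h, ← mul_assoc, mul_inv_cancel₀ hvC, one_mul]
  · refine (j3.const_mul (-(v : ℂ)⁻¹)).congr (ae_of_all _ fun t => ?_)
    simp only [Pi.mul_apply]
    push_cast
    ring
  · refine j2.congr (ae_of_all _ fun t => ?_)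
    simp only [Pi.mul_apply]
    ring
  · refine j1.congr (ae_of_all _ fun t => ?_)
    simp only [Pi.mul_apply]
    ring

theorem ste : SteStmt := by
  intro ι _ _ v x F F' B hF hF' hb hb' hd
  have hmp := Pool.Agent.Loc.resample (n := ι) (ν := gaussianReal 0 v) x
  have hev := measurePreserving_eval (fun _ : ι => gaussianReal 0 v) x
  by_cases hv : v = 0
  · subst hv
    have h1 : ∀ᵐ V ∂(Measure.pi fun _ : ι => gaussianReal 0 0), V x = 0 := by
      have h2 : ∀ᵐ t ∂(gaussianReal 0 0), t = 0 := by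
        rw [gaussianReal_zero_var]
        rw [ae_dirac_eq]
        rfl
      exact hev.quasiMeasurePreserving.ae h2
    have h3 : ∫ V, (V x : ℂ) * F V ∂(Measure.pi fun _ : ι => gaussianReal 0 0) = 0 := by
      rw [← integral_zero (α := ι → ℝ) (μ := Measure.pi fun _ : ι => gaussianReal 0 0)
        (G := ℂ)]
      refine integral_congr_ae (h1.mono fun V hV => ?_)
      change (V x : ℂ) * F V = 0
      rw [hV, Complex.ofReal_zero, zero_mul]
    rw [h3]
    simp
  have e1 : ∀ G : (ι → ℝ) → ℂ, Continuous G →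
      Integrable G (Measure.pi fun _ : ι => gaussianReal 0 v) →
      ∫ V, G V ∂(Measure.pi fun _ : ι => gaussianReal 0 v) =
        ∫ V, ∫ t, G (update V x t) ∂(gaussianReal 0 v)
          ∂(Measure.pi fun _ : ι => gaussianReal 0 v) := by
    intro G hG hint
    have h1 : Integrable (fun z : (ι → ℝ) × ℝ => G (update z.1 x z.2))
        ((Measure.pi fun _ : ι => gaussianReal 0 v).prod (gaussianReal 0 v)) :=
      hmp.integrable_comp_of_integrable hint
    rw [← integral_prod (fun z : (ι → ℝ) × ℝ => G (update z.1 x z.2)) h1]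
    have h2 := hmp.map_eq
    conv_lhs => rw [← h2]
    rw [integral_map hmp.measurable.aemeasurable]
    rw [h2]
    exact hG.aestronglyMeasurable
  have i1 : Integrable (fun V : ι → ℝ => (V x : ℂ) * F V)
      (Measure.pi fun _ : ι => gaussianReal 0 v) := by
    have h1 : Integrable (fun V : ι → ℝ => |V x|) (Measure.pi fun _ : ι => gaussianReal 0 v) :=
      hev.integrable_comp_of_integrable int_abs
    refine (h1.mul_const B).mono' ?_ (ae_of_all _ fun V => ?_)
    · exact ((Complex.continuous_ofReal.comp (continuous_apply x)).mul hF).aestronglyMeasurable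
    · rw [norm_mul, Complex.norm_real, Real.norm_eq_abs]
      exact mul_le_mul_of_nonneg_left (hb V) (abs_nonneg _)
  have i2 : Integrable F' (Measure.pi fun _ : ι => gaussianReal 0 v) :=
    (integrable_const B).mono' hF'.aestronglyMeasurable (ae_of_all _ hb')
  rw [e1 (fun V => (V x : ℂ) * F V)
    ((Complex.continuous_ofReal.comp (continuous_apply x)).mul hF) i1, e1 _ hF' i2,
    ← integral_const_mul]
  refine integral_congr_ae (ae_of_all _ fun V => ?_)
  simp only [update_self]
  have hu : Continuous fun t : ℝ => update V x t := continuous_const.update x continuous_id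
  refine ste1 hv (fun t => ?_) (hF'.comp hu) (fun t => hb _) (fun t => hb' _)
  have h1 := hd (update V x t)
  simp only [update_idem, update_self] at h1
  exact h1

end Pool.Agent.LE.QD.H65
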